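import Pool.Agent.helper82.KN.Spec

/-!
# Project kn (MP_8ffa71_co): row SPA
-/

set_option autoImplicit false

open Finset Polynomial

namespace Pool.Agent.KN

theorem SPA_P93 : P93 ℝ = (X - C (20 : ℝ)) * (X - C (-10 : ℝ)) ^ 8 * (X - C (4 : ℝ)) ^ 27 * (X - C (-1 : ℝ)) ^ 48 := by
  unfold P93
  have h1 : (C (20 : ℝ) : ℝ[X]) = 20 := rfl
  have h2 : (C (-10 : ℝ) : ℝ[X]) = -10 := by rw [C_neg]; rfl
  have h3 : (C (4 : ℝ) : ℝ[X]) = 4 := rfl
  have h4 : (C (-1 : ℝ) : ℝ[X]) = -1 := by rw [C_neg, C_1]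
  rw [h1, h2, h3, h4, sub_neg_eq_add, sub_neg_eq_add]

theorem SPA_monic : (P93 ℝ).Monic := by
  rw [SPA_P93]
  exact (((monic_X_sub_C _).mul ((monic_X_sub_C _).pow 8)).mul ((monic_X_sub_C _).pow 27)).mul ((monic_X_sub_C _).pow 48)

theorem SPA_roots : (P93 ℝ).roots = {20} + 8 • {-10} + 27 • {4} + 48 • {-1} := by
  have h0 : P93 ℝ ≠ 0 := SPA_monic.ne_zero
  rw [SPA_P93] at h0 ⊢
  rw [roots_mul h0, roots_mul (left_ne_zero_of_mul h0), roots_mul (left_ne_zero_of_mul (left_ne_zero_of_mul h0)),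
    roots_pow, roots_pow, roots_pow, roots_X_sub_C, roots_X_sub_C, roots_X_sub_C, roots_X_sub_C]

theorem SPA_card : Multiset.card (P93 ℝ).roots = 84 := by
  rw [SPA_roots]
  simp

theorem SPA_sum (g : ℝ → ℝ) : ((P93 ℝ).roots.map g).sum = g 20 + 8 * g (-10) + 27 * g 4 + 48 * g (-1) := by
  rw [SPA_roots]
  simp only [Multiset.map_add, Multiset.sum_add, Multiset.map_nsmul, Multiset.sum_nsmul, Multiset.map_singleton,
    Multiset.sum_singleton, nsmul_eq_mul, Nat.cast_ofNat]

theorem SPA_mem {x : ℝ} (h : x ∈ (P93 ℝ).roots) : x = 20 ∨ x = -10 ∨ x = 4 ∨ x = -1 := by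
  rw [SPA_roots] at h
  simp only [Multiset.mem_add, Multiset.mem_singleton] at h
  rcases h with ((h | h) | h) | h
  · exact Or.inl h
  · exact Or.inr (Or.inl (Multiset.mem_singleton.1 (Multiset.mem_of_mem_nsmul h)))
  · exact Or.inr (Or.inr (Or.inl (Multiset.mem_singleton.1 (Multiset.mem_of_mem_nsmul h))))
  · exact Or.inr (Or.inr (Or.inr (Multiset.mem_singleton.1 (Multiset.mem_of_mem_nsmul h))))

/-- a Hermitian matrix is conjugate to a diagonal matrix -/
theorem SPA_diag (V : Type) [Fintype V] [DecidableEq V] (A : Matrix V V ℝ) (hA : A.IsHermitian)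
    (hP : A.charpoly = P93 ℝ) :
    ∃ (U : Matrix V V ℝ) (θ : V → ℝ), U * U.conjTranspose = 1 ∧ U.conjTranspose * U = 1 ∧
      A = U * Matrix.diagonal θ * U.conjTranspose ∧ (P93 ℝ).roots = Multiset.map θ (Finset.univ : Finset V).val := by
  refine ⟨(hA.eigenvectorUnitary : Matrix V V ℝ), hA.eigenvalues, ?_, ?_, ?_, ?_⟩
  · exact Unitary.coe_mul_star_self hA.eigenvectorUnitary
  · exact Unitary.coe_star_mul_self hA.eigenvectorUnitary
  · have h := hA.spectral_theorem
    rw [Unitary.conjStarAlgAut_apply] at h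
    exact h
  · rw [← hP, hA.roots_charpoly_eq_eigenvalues]
    rfl

theorem SPA : SPA_stmt := by
  intro V _ _ A hA hP
  obtain ⟨U, θ, hU1, hU2, hAU, hr⟩ := SPA_diag V A hA hP
  have hmem : ∀ i, θ i = 20 ∨ θ i = -10 ∨ θ i = 4 ∨ θ i = -1 := by
    intro i
    apply SPA_mem
    rw [hr]
    exact Multiset.mem_map.2 ⟨i, Finset.mem_univ i, rfl⟩
  have hsum : ∀ g : ℝ → ℝ, ∑ i, g (θ i) = g 20 + 8 * g (-10) + 27 * g 4 + 48 * g (-1) := by
    intro g
    rw [← SPA_sum g, hr, Multiset.map_map]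
    rfl
  have hmul : ∀ d e : V → ℝ, (U * Matrix.diagonal d * U.conjTranspose) * (U * Matrix.diagonal e * U.conjTranspose) =
      U * Matrix.diagonal (fun i => d i * e i) * U.conjTranspose := by
    intro d e
    rw [← Matrix.diagonal_mul_diagonal]
    calc (U * Matrix.diagonal d * U.conjTranspose) * (U * Matrix.diagonal e * U.conjTranspose)
        = U * Matrix.diagonal d * (U.conjTranspose * U) * (Matrix.diagonal e * U.conjTranspose) := by
          simp only [Matrix.mul_assoc]
      _ = U * (Matrix.diagonal d * Matrix.diagonal e) * U.conjTranspose := by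
          rw [hU2, Matrix.mul_one]
          simp only [Matrix.mul_assoc]
  have hsm : ∀ c : ℝ, c • (1 : Matrix V V ℝ) = U * Matrix.diagonal (fun _ => c) * U.conjTranspose := by
    intro c
    have h1 : Matrix.diagonal (fun _ : V => c) = c • (1 : Matrix V V ℝ) := by
      rw [← Matrix.diagonal_one, ← Matrix.diagonal_smul]
      congr 1
      ext i
      simp
    rw [h1, Matrix.mul_smul, Matrix.smul_mul, Matrix.mul_one, hU1]
  have hsub : ∀ d e : V → ℝ, (U * Matrix.diagonal d * U.conjTranspose) - (U * Matrix.diagonal e * U.conjTranspose) =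
      U * Matrix.diagonal (fun i => d i - e i) * U.conjTranspose := by
    intro d e
    rw [← Matrix.diagonal_sub, Matrix.mul_sub, Matrix.sub_mul]
  have hadd : ∀ d e : V → ℝ, (U * Matrix.diagonal d * U.conjTranspose) + (U * Matrix.diagonal e * U.conjTranspose) =
      U * Matrix.diagonal (fun i => d i + e i) * U.conjTranspose := by
    intro d e
    rw [← Matrix.diagonal_add, Matrix.mul_add, Matrix.add_mul]
  have htr : ∀ d : V → ℝ, (U * Matrix.diagonal d * U.conjTranspose).trace = ∑ i, d i := by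
    intro d
    rw [Matrix.trace_mul_comm, ← Matrix.mul_assoc, hU2, Matrix.one_mul, Matrix.trace_diagonal]
  have hone : (1 : Matrix V V ℝ) = U * Matrix.diagonal (fun _ => (1 : ℝ)) * U.conjTranspose := by
    rw [← hsm, one_smul]
  have hB : (A - (4 : ℝ) • 1) * (A + 1) * (A + (10 : ℝ) • 1) =
      U * Matrix.diagonal (fun i => (θ i - 4) * (θ i + 1) * (θ i + 10)) * U.conjTranspose := by
    rw [hsm 4, hsm 10]
    have h1 : A + 1 = U * Matrix.diagonal (fun i => θ i + 1) * U.conjTranspose := by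
      conv_lhs => rw [hone, hAU]
      rw [hadd]
    rw [h1]
    conv_lhs => rw [hAU]
    rw [hsub, hadd, hmul, hmul]
  refine ⟨?_, ?_, ?_, ?_, ?_⟩
  · have h1 := congrArg Multiset.card hr
    rw [SPA_card, Multiset.card_map] at h1
    exact h1.symm
  · rw [hB, hsm 20]
    conv_lhs => rw [hAU]
    rw [hsub, hmul]
    have h0 : (fun i => (θ i - 20) * ((θ i - 4) * (θ i + 1) * (θ i + 10))) = fun _ => (0 : ℝ) := by
      funext i
      rcases hmem i with h | h | h | h <;> rw [h] <;> norm_num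
    rw [h0]
    simp
  · conv_lhs => rw [hAU]
    rw [hmul, htr, hsum (fun x => x * x)]
    norm_num
  · rw [hB, htr, hsum (fun x => (x - 4) * (x + 1) * (x + 10))]
    norm_num
  · intro x
    have hpsd : ((20 : ℝ) • 1 - A).PosSemidef := by
      rw [hsm 20]
      rw [hAU, hsub]
      apply Matrix.PosSemidef.mul_mul_conjTranspose_same
      apply Matrix.PosSemidef.diagonal
      intro i
      show (0 : ℝ) ≤ 20 - θ i
      rcases hmem i with h | h | h | h <;> rw [h] <;> norm_num
    have h := hpsd.dotProduct_mulVec_nonneg x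
    exact h

end Pool.Agent.KN
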